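import Pool.Agent.U722.FF.Stm

/-!
# Project FF, package CV1: elements which fix an edge
-/

set_option autoImplicit false
set_option linter.unusedSectionVars false

namespace U864.FFP

open U722.FF Matrix MvPolynomial

theorem toF_entry (n : ℕ) (h : GL (Fin 2) (MvPolynomial (Fin n) ℤ)) (i j : Fin 2) :
    (toF n h).1 i j = algebraMap (MvPolynomial (Fin n) ℤ)
      (FractionRing (MvPolynomial (Fin n) ℤ)) (h.1 i j) := rfl

theorem t_CV1 (hE : S_EDGE) (hS : S_SQ) : S_CV1 := by
  intro n D hD u v h τ htr hadj hu hv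
  set α := algebraMap (MvPolynomial (Fin n) ℤ) (FractionRing (MvPolynomial (Fin n) ℤ)) with hα
  have hinj : Function.Injective α := IsFractionRing.injective _ _
  -- the determinant
  have hdu : IsUnit h.1.det := by
    have h1 := (Matrix.GeneralLinearGroup.det h).isUnit
    exact h1
  obtain ⟨δ, hδu, hδ⟩ := MvPolynomial.isUnit_iff_eq_C_of_isReduced.1 hdu
  have hδ1 : δ = 1 ∨ δ = -1 := Int.isUnit_iff.1 hδu
  have hδ0 : δ ≠ 0 := by rcases hδ1 with h1 | h1 <;> rw [h1] <;> norm_num
  have eT : (toF n h).1.trace = α (C τ) := by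
    rw [Matrix.trace_fin_two, toF_entry, toF_entry, ← map_add, ← Matrix.trace_fin_two, htr]
  have eD : (toF n h).1.det = α (C δ) := by
    rw [Matrix.det_fin_two, toF_entry, toF_entry, toF_entry, toF_entry, ← map_mul, ← map_mul,
      ← map_sub, ← Matrix.det_fin_two, hδ]
  have hv0 : D.v (toF n h).1.det = 0 := by
    rw [eD, hD (C δ) (by rwa [Ne, C_eq_zero]), totalDegree_C]
    simp
  obtain ⟨r, hr0, hr1⟩ := hE _ D u v (toF n h) hadj hv0 hu hv
  obtain ⟨p, q, hq, hpq⟩ := IsFractionRing.div_surjective (A := MvPolynomial (Fin n) ℤ) r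
  have hq0 : q ≠ 0 := nonZeroDivisors.ne_zero hq
  have hαq : α q ≠ 0 := fun h0 => hq0 (hinj (by rw [h0, map_zero]))
  have hr : r * α q = α p := by
    rw [← hpq]
    exact div_mul_cancel₀ _ hαq
  have hdeg : p.totalDegree ≤ q.totalDegree := by
    by_cases hp : p = 0
    · rw [hp, totalDegree_zero]
      exact Nat.zero_le _
    · have hαp : α p ≠ 0 := fun h0 => hp (hinj (by rw [h0, map_zero]))
      have hrn : r ≠ 0 := by
        intro h0
        rw [h0, zero_mul] at hr
        exact hαp hr.symm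
      have h1 := D.map_mul r (α q) hrn hαq
      rw [hr, hD p hp, hD q hq0] at h1
      have h2 := hr0 hrn
      have h3 : (p.totalDegree : ℤ) ≤ q.totalDegree := by linarith
      exact_mod_cast h3
  have hX : α (p ^ 2 - C τ * p * q + C δ * q ^ 2) =
      (α q * α q) * (r ^ 2 - (toF n h).1.trace * r + (toF n h).1.det) := by
    rw [eT, eD, map_add, map_sub, map_pow, map_mul, map_mul, map_mul, map_pow, ← hr]
    ring
  have hfin := hS n p q τ δ hq0 hδ1 hdeg (by
    by_cases h0 : p ^ 2 - C τ * p * q + C δ * q ^ 2 = 0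
    · exact Or.inl h0
    · right
      have hαX : α (p ^ 2 - C τ * p * q + C δ * q ^ 2) ≠ 0 :=
        fun h1 => h0 (hinj (by rw [h1, map_zero]))
      have hY : r ^ 2 - (toF n h).1.trace * r + (toF n h).1.det ≠ 0 := by
        intro h1
        rw [h1, mul_zero] at hX
        exact hαX hX
      have h2 := hr1 hY
      have h3 := D.map_mul (α q * α q) _ (mul_ne_zero hαq hαq) hY
      rw [← hX, hD _ h0, D.map_mul _ _ hαq hαq, hD q hq0] at h3
      have h4 : ((p ^ 2 - C τ * p * q + C δ * q ^ 2).totalDegree : ℤ) < 2 * q.totalDegree := by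
        linarith
      exact_mod_cast h4)
  rcases hfin with h1 | h1
  · left
    rw [htr, hδ, ← C_1, ← C_sub, ← C_add, h1, C_0]
  · right
    rw [htr, hδ, ← C_1, ← C_add, ← C_add, h1, C_0]

end U864.FFP
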